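import Pool.Agent.H773.LK.Spec

/-!
# Geometric estimate for the kernel of a periodic curve (task LK-GEO of helper773)
-/

set_option autoImplicit false

noncomputable section

namespace Pool.Agent.H230.LK

open MeasureTheory Filter Topology Set Pool.Agent.H773.LK
open scoped ENNReal NNReal ComplexConjugate InnerProductSpace

theorem per_X {L β : ℝ} {X y : ℝ → ℝ} (h : Crv L β X y) (s : ℝ) (n : ℤ) :
    X (s + n * L) = X s + 2 * Real.pi * n := by
  induction n using Int.induction_on with
  | zero => simp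
  | succ k ih =>
    have e : s + ((k : ℤ) + 1 : ℤ) * L = (s + (k : ℤ) * L) + L := by push_cast; ring
    rw [e, h.X_per, ih]
    push_cast
    ring
  | pred k ih =>
    have e : s + (-(k : ℤ) : ℤ) * L = (s + (-(k : ℤ) - 1 : ℤ) * L) + L := by push_cast; ring
    rw [e, h.X_per] at ih
    have : X (s + (-(k : ℤ) - 1 : ℤ) * L) = X s + 2 * Real.pi * ((-(k : ℤ) : ℤ) : ℝ)
        - 2 * Real.pi := by linarith
    rw [this]
    push_cast
    ring

theorem per_y {L β : ℝ} {X y : ℝ → ℝ} (h : Crv L β X y) (s : ℝ) (n : ℤ) :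
    y (s + n * L) = y s := by
  induction n using Int.induction_on with
  | zero => simp
  | succ k ih =>
    have e : s + ((k : ℤ) + 1 : ℤ) * L = (s + (k : ℤ) * L) + L := by push_cast; ring
    rw [e, h.y_per, ih]
  | pred k ih =>
    have e : s + (-(k : ℤ) : ℤ) * L = (s + (-(k : ℤ) - 1 : ℤ) * L) + L := by push_cast; ring
    rw [e, h.y_per] at ih
    exact ih

theorem norm_sq_eq (u v : ℝ) : ‖1 - Complex.exp (Complex.I * (v : ℂ) - (u : ℂ))‖ ^ 2 =
    (1 - Real.exp (-u)) ^ 2 + 4 * Real.exp (-u) * Real.sin (v / 2) ^ 2 := by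
  have e : Complex.exp (Complex.I * (v : ℂ) - (u : ℂ)) =
      (Real.exp (-u) : ℂ) * (Real.cos v + Real.sin v * Complex.I) := by
    rw [sub_eq_add_neg, Complex.exp_add, mul_comm, mul_comm Complex.I, Complex.exp_mul_I]
    push_cast
    ring
  rw [e, ← Complex.normSq_eq_norm_sq, Complex.normSq_apply]
  have h1 : Real.cos v = 1 - 2 * Real.sin (v / 2) ^ 2 := by
    have := Real.cos_sq_add_sin_sq (v / 2)
    have h2 := Real.cos_two_mul (v / 2)
    rw [show 2 * (v / 2) = v by ring] at h2
    rw [h2]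
    linarith
  have h3 := Real.cos_sq_add_sin_sq v
  simp only [Complex.sub_re, Complex.one_re, Complex.mul_re, Complex.ofReal_re, Complex.add_re,
    Complex.I_re, Complex.ofReal_im, Complex.add_im, Complex.mul_im, Complex.I_im,
    Complex.sub_im, Complex.one_im]
  linear_combination Real.exp (-u) ^ 2 * h3 + (-2 * Real.exp (-u)) * h1

theorem lower_bd {u v : ℝ} (hu : 0 ≤ u) (hv : |v| ≤ Real.pi) :
    min (1 / 2) ((u + |v|) / 5) ≤ ‖1 - Complex.exp (Complex.I * (v : ℂ) - (u : ℂ))‖ := by
  have h0 := norm_nonneg (1 - Complex.exp (Complex.I * (v : ℂ) - (u : ℂ)))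
  have h1 := norm_sq_eq u v
  set N := ‖1 - Complex.exp (Complex.I * (v : ℂ) - (u : ℂ))‖ with hN
  have hE := Real.exp_pos (-u)
  by_cases h : u ≤ 1
  · apply (min_le_right _ _).trans
    have hE1 : 1 / 3 ≤ Real.exp (-u) := by
      have h2 : Real.exp (-1) ≤ Real.exp (-u) := Real.exp_le_exp.2 (by linarith)
      have h3 : (1 : ℝ) / 3 ≤ Real.exp (-1) := by
        rw [Real.exp_neg, ← one_div]
        apply one_div_le_one_div_of_le (Real.exp_pos 1)
        have := Real.exp_one_lt_d9
        linarith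
      linarith
    have hE2 : u / 2 ≤ 1 - Real.exp (-u) := by
      have h2 := Real.add_one_le_exp u
      have h3 : Real.exp (-u) ≤ (1 + u)⁻¹ := by
        rw [Real.exp_neg]
        apply inv_anti₀ (by linarith)
        linarith
      have h4 : u / 2 ≤ 1 - (1 + u)⁻¹ := by
        have : 1 - (1 + u)⁻¹ = u / (1 + u) := by
          field_simp
          ring
        rw [this]
        apply div_le_div_of_nonneg_left hu (by linarith) (by linarith)
      linarith
    have hs : |v| / Real.pi ≤ |Real.sin (v / 2)| := by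
      have h2 := Real.mul_le_sin (x := |v| / 2) (by positivity) (by linarith)
      have h3 : |Real.sin (v / 2)| = Real.sin (|v| / 2) := by
        rcases abs_cases v with ⟨h4, h5⟩ | ⟨h4, h5⟩
        · rw [h4, abs_of_nonneg]
          exact Real.sin_nonneg_of_nonneg_of_le_pi (by linarith) (by linarith [Real.pi_pos])
        · rw [h4, show -v / 2 = -(v / 2) by ring, Real.sin_neg, abs_of_nonpos]
          have : 0 ≤ Real.sin (-(v / 2)) :=
            Real.sin_nonneg_of_nonneg_of_le_pi (by linarith) (by linarith [Real.pi_pos])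
          rw [Real.sin_neg] at this
          linarith
      rw [h3]
      calc |v| / Real.pi = 2 / Real.pi * (|v| / 2) := by ring
        _ ≤ _ := h2
    have hs2 : |v| / 4 ≤ |Real.sin (v / 2)| := by
      refine le_trans ?_ hs
      apply div_le_div_of_nonneg_left (abs_nonneg v) Real.pi_pos Real.pi_le_four
    have hs3 : (|v| / 4) ^ 2 ≤ Real.sin (v / 2) ^ 2 := by
      rw [← sq_abs (Real.sin (v / 2))]
      exact pow_le_pow_left₀ (by positivity) hs2 2
    have h5 : ((u + |v|) / 5) ^ 2 ≤ N ^ 2 := by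
      rw [h1]
      have a1 : (u / 2) ^ 2 ≤ (1 - Real.exp (-u)) ^ 2 := pow_le_pow_left₀ (by positivity) hE2 2
      have a2 : 4 * (1 / 3) * (|v| / 4) ^ 2 ≤ 4 * Real.exp (-u) * Real.sin (v / 2) ^ 2 := by
        apply mul_le_mul _ hs3 (by positivity) (by positivity)
        linarith
      nlinarith [sq_nonneg (u - |v|)]
    exact (abs_le_of_sq_le_sq' h5 h0).2
  · push Not at h
    apply (min_le_left _ _).trans
    have hE1 : Real.exp (-u) ≤ 1 / 2 := by
      have h2 : Real.exp (-u) ≤ Real.exp (-1) := Real.exp_le_exp.2 (by linarith)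
      have h3 : Real.exp (-1) ≤ 1 / 2 := by
        rw [Real.exp_neg, ← one_div]
        apply one_div_le_one_div_of_le (by norm_num)
        have := Real.add_one_le_exp (1 : ℝ)
        linarith
      linarith
    have h5 : (1 / 2) ^ 2 ≤ N ^ 2 := by
      rw [h1]
      have a2 : 0 ≤ 4 * Real.exp (-u) * Real.sin (v / 2) ^ 2 := by positivity
      nlinarith
    exact (abs_le_of_sq_le_sq' h5 h0).2

theorem qq_bd {L β : ℝ} {X y : ℝ → ℝ} (h : Crv L β X y) : ∃ c : ℝ, 0 < c ∧
    ∀ s ∈ Ioc (0 : ℝ) L, ∀ t ∈ Ioc (0 : ℝ) L,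
      c * min |s - t| (L - |s - t|) ≤ ‖1 - qq β X y s t‖ := by
  obtain ⟨c, hc, harc⟩ := h.arc
  have hL := h.L_pos
  have hβ := h.β_pos
  have hpi := Real.pi_pos
  refine ⟨min (1 / L) (c / (1 + 1 / β) / 5), by positivity, ?_⟩
  intro s hs t ht
  have hd1 : |s - t| < L := by
    rw [abs_lt]
    constructor <;> linarith [hs.1, hs.2, ht.1, ht.2]
  set d := min |s - t| (L - |s - t|) with hd
  have hd0 : 0 ≤ d := le_min (abs_nonneg _) (by linarith)
  have hdL : d ≤ L / 2 := by
    rcases le_total |s - t| (L / 2) with h1 | h1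
    · exact (min_le_left _ _).trans h1
    · exact (min_le_right _ _).trans (by linarith)
  let n : ℤ := round ((X s - X t) / (2 * Real.pi))
  let v : ℝ := X s - X t - 2 * Real.pi * n
  let u : ℝ := β * |y s - y t|
  have hu : 0 ≤ u := by positivity
  have hv : |v| ≤ Real.pi := by
    have h1 := abs_sub_round ((X s - X t) / (2 * Real.pi))
    have h2 : v = 2 * Real.pi * ((X s - X t) / (2 * Real.pi) - n) := by
      change X s - X t - 2 * Real.pi * n = _
      field_simp
    rw [h2, abs_mul, abs_of_pos (by positivity : 0 < 2 * Real.pi)]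
    calc 2 * Real.pi * |(X s - X t) / (2 * Real.pi) - n| ≤ 2 * Real.pi * (1 / 2) :=
          mul_le_mul_of_nonneg_left h1 (by positivity)
      _ = Real.pi := by ring
  have hq : qq β X y s t = Complex.exp (Complex.I * (v : ℂ) - (u : ℂ)) := by
    unfold qq
    rw [Complex.exp_eq_exp_iff_exists_int]
    refine ⟨n, ?_⟩
    simp only [v, u]
    push_cast
    ring
  have h3 := harc s (t + n * L)
  rw [per_X h, per_y h] at h3
  have h4 : d ≤ |s - (t + n * L)| := by
    by_cases hn : n = 0
    · rw [hn]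
      simp only [Int.cast_zero, zero_mul, add_zero]
      exact min_le_left _ _
    · have h5 : (1 : ℝ) ≤ |(n : ℝ)| := by
        have := Int.one_le_abs hn
        exact_mod_cast this
      have h6 : |(n : ℝ) * L| - |s - t| ≤ |s - (t + n * L)| := by
        have := abs_sub_abs_le_abs_sub ((n : ℝ) * L) (s - t)
        have e : |(n : ℝ) * L - (s - t)| = |s - (t + n * L)| := by
          rw [← abs_neg]
          congr 1
          ring
        rwa [e] at this
      rw [abs_mul, abs_of_pos hL] at h6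
      have h7 : L ≤ |(n : ℝ)| * L := by nlinarith
      exact (min_le_right _ _).trans (by linarith)
  have h5 : c * d ≤ |v| + |y s - y t| := by
    have e : X s - (X t + 2 * Real.pi * n) = v := by simp only [v]; ring
    rw [e] at h3
    exact (mul_le_mul_of_nonneg_left h4 hc.le).trans h3
  have h6 : c / (1 + 1 / β) * d ≤ u + |v| := by
    rw [div_mul_eq_mul_div, div_le_iff₀ (by positivity)]
    have e : |y s - y t| = u * (1 / β) := by
      simp only [u]
      field_simp
    rw [e] at h5
    have a1 : 0 ≤ |v| * (1 / β) := by positivity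
    nlinarith
  rw [hq]
  refine le_trans ?_ (lower_bd hu hv)
  apply le_min
  · calc min (1 / L) (c / (1 + 1 / β) / 5) * d ≤ 1 / L * d :=
          mul_le_mul_of_nonneg_right (min_le_left _ _) hd0
      _ ≤ 1 / L * (L / 2) := mul_le_mul_of_nonneg_left hdL (by positivity)
      _ = 1 / 2 := by field_simp
  · calc min (1 / L) (c / (1 + 1 / β) / 5) * d ≤ c / (1 + 1 / β) / 5 * d :=
          mul_le_mul_of_nonneg_right (min_le_right _ _) hd0
      _ = c / (1 + 1 / β) * d / 5 := by ring
      _ ≤ (u + |v|) / 5 := by linarith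

theorem int_abs (a : ℝ) : IntegrableOn (fun x : ℝ => |x| ^ (-(1 / 2) : ℝ)) (Ioc (-a) a) := by
  have h := (intervalIntegral.intervalIntegrable_cpow' (r := ((-(1 / 2) : ℝ) : ℂ)) (a := -a)
    (b := a) (by rw [Complex.ofReal_re]; norm_num)).norm
  have h2 := h.1
  refine h2.congr_fun (fun x _ => ?_) measurableSet_Ioc
  change ‖(x : ℂ) ^ (((-(1 / 2) : ℝ)) : ℂ)‖ = _
  rw [Complex.norm_cpow_real, Complex.norm_real, Real.norm_eq_abs]

theorem lint_le {L e s : ℝ} (hL : 0 < L) (he : |e| ≤ L) (hs : s ∈ Ioc (0 : ℝ) L)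
    (f : ℝ → ℝ≥0∞) : ∫⁻ t in Ioc (0 : ℝ) L, f (s + e - t) ≤
      ∫⁻ x in Ioc (-(3 * L)) (3 * L), f x := by
  have h1 : ∫⁻ x in Ioc (-(3 * L)) (3 * L), f x =
      ∫⁻ t, (Ioc (-(3 * L)) (3 * L)).indicator f (s + e - t) := by
    rw [lintegral_sub_left_eq_self (μ := volume) ((Ioc (-(3 * L)) (3 * L)).indicator f) (s + e),
      lintegral_indicator measurableSet_Ioc]
  rw [h1, ← lintegral_indicator measurableSet_Ioc]
  apply lintegral_mono
  intro t
  by_cases ht : t ∈ Ioc (0 : ℝ) L
  · have h2 : s + e - t ∈ Ioc (-(3 * L)) (3 * L) := by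
      have := abs_le.1 he
      constructor <;> linarith [ht.1, ht.2, hs.1, hs.2]
    simp only [indicator_of_mem ht, indicator_of_mem h2]
    exact le_rfl
  · simp only [indicator_of_notMem ht]
    exact zero_le

theorem min_rpow {L x : ℝ} (h : |x| < L) :
    (min |x| (L - |x|)) ^ (-(1 / 2) : ℝ) ≤
      |x| ^ (-(1 / 2) : ℝ) + |x - L| ^ (-(1 / 2) : ℝ) + |x + L| ^ (-(1 / 2) : ℝ) := by
  have p1 : 0 ≤ |x| ^ (-(1 / 2) : ℝ) := by positivity
  have p2 : 0 ≤ |x - L| ^ (-(1 / 2) : ℝ) := by positivity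
  have p3 : 0 ≤ |x + L| ^ (-(1 / 2) : ℝ) := by positivity
  rcases min_choice |x| (L - |x|) with h1 | h1
  · rw [h1]
    linarith
  · rw [h1]
    rcases abs_cases x with ⟨h2, h3⟩ | ⟨h2, h3⟩
    · have : L - |x| = |x - L| := by
        rw [h2] at h ⊢
        rw [abs_of_nonpos (by linarith)]
        ring
      rw [this]
      linarith
    · have : L - |x| = |x + L| := by
        rw [h2] at h ⊢
        rw [abs_of_nonneg (by linarith)]
        ring
      rw [this]
      linarith

/-- **GEO** -/
theorem t_GEO : S_GEO := by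
  intro L β X y h
  obtain ⟨c, hc, hb⟩ := qq_bd h
  have hL := h.L_pos
  have hlt : ∀ s ∈ Ioc (0 : ℝ) L, ∀ t ∈ Ioc (0 : ℝ) L, |s - t| < L := by
    intro s hs t ht
    rw [abs_lt]
    constructor <;> linarith [hs.1, hs.2, ht.1, ht.2]
  have hne : ∀ s ∈ Ioc (0 : ℝ) L, ∀ t ∈ Ioc (0 : ℝ) L, s ≠ t →
      0 < c * min |s - t| (L - |s - t|) := by
    intro s hs t ht hst
    have h1 : 0 < |s - t| := abs_pos.2 (sub_ne_zero.2 hst)
    have h2 : 0 < min |s - t| (L - |s - t|) := lt_min h1 (by linarith [hlt s hs t ht])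
    positivity
  refine ⟨?_, ?_⟩
  · intro s hs t ht hst hq
    have h1 := hb s hs t ht
    rw [hq, sub_self, norm_zero] at h1
    linarith [hne s hs t ht hst]
  · set f : ℝ → ℝ≥0∞ := fun x => ENNReal.ofReal (|x| ^ (-(1 / 2) : ℝ)) with hf
    set I : ℝ≥0∞ := ∫⁻ x in Ioc (-(3 * L)) (3 * L), f x with hI
    have hIfin : I < ∞ := (int_abs (3 * L)).lintegral_lt_top
    set c' : ℝ := c ^ (-(1 / 2) : ℝ) with hc'
    have hc'0 : 0 < c' := Real.rpow_pos_of_pos hc _
    have hfm : Measurable f := by
      have : Measurable fun x : ℝ => |x| ^ (-(1 / 2) : ℝ) :=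
        (continuous_abs.measurable).pow_const _
      exact this.ennreal_ofReal
    have key : ∀ s ∈ Ioc (0 : ℝ) L, ∫⁻ t in Ioc (0 : ℝ) L,
        ENNReal.ofReal (‖1 - qq β X y s t‖ ^ (-(1 / 2) : ℝ)) ≤
          ENNReal.ofReal c' * (I + I + I) := by
      intro s hs
      have h1 : ∫⁻ t in Ioc (0 : ℝ) L, ENNReal.ofReal (‖1 - qq β X y s t‖ ^ (-(1 / 2) : ℝ)) ≤
          ∫⁻ t in Ioc (0 : ℝ) L, ENNReal.ofReal c' *
            (f (s + 0 - t) + f (s + (-L) - t) + f (s + L - t)) := by
        apply setLIntegral_mono' measurableSet_Ioc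
        intro t ht
        by_cases hst : s = t
        · have : qq β X y s t = 1 := by
            unfold qq
            rw [hst]
            simp
          rw [this, sub_self, norm_zero, Real.zero_rpow (by norm_num), ENNReal.ofReal_zero]
          exact zero_le
        · have h2 := hne s hs t ht hst
          have h3 := hb s hs t ht
          have h4 : ‖1 - qq β X y s t‖ ^ (-(1 / 2) : ℝ) ≤
              (c * min |s - t| (L - |s - t|)) ^ (-(1 / 2) : ℝ) :=
            Real.rpow_le_rpow_of_nonpos h2 h3 (by norm_num)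
          have h5 := min_rpow (hlt s hs t ht)
          have h6 : 0 ≤ min |s - t| (L - |s - t|) :=
            le_min (abs_nonneg _) (by linarith [hlt s hs t ht])
          rw [Real.mul_rpow hc.le h6, ← hc'] at h4
          have h7 : ‖1 - qq β X y s t‖ ^ (-(1 / 2) : ℝ) ≤ c' * (|s - t| ^ (-(1 / 2) : ℝ) +
              |s - t - L| ^ (-(1 / 2) : ℝ) + |s - t + L| ^ (-(1 / 2) : ℝ)) :=
            h4.trans (mul_le_mul_of_nonneg_left h5 hc'0.le)
          refine (ENNReal.ofReal_le_ofReal h7).trans ?_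
          rw [ENNReal.ofReal_mul hc'0.le, ENNReal.ofReal_add (by positivity) (by positivity),
            ENNReal.ofReal_add (by positivity) (by positivity)]
          have e1 : s + 0 - t = s - t := by ring
          have e2 : s + -L - t = s - t - L := by ring
          have e3 : s + L - t = s - t + L := by ring
          rw [e1, e2, e3]
      refine h1.trans ?_
      have m : ∀ e : ℝ, Measurable fun t => f (s + e - t) := fun e =>
        hfm.comp (measurable_const.sub measurable_id)
      have m2 : Measurable fun t => f (s + 0 - t) + f (s + (-L) - t) := (m 0).add (m (-L))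
      have m3 : Measurable fun t => f (s + 0 - t) + f (s + (-L) - t) + f (s + L - t) :=
        m2.add (m L)
      rw [lintegral_const_mul _ m3, lintegral_add_left m2, lintegral_add_left (m 0)]
      gcongr
      · exact lint_le hL (by rw [abs_zero]; exact hL.le) hs f
      · exact lint_le hL (by rw [abs_neg, abs_of_pos hL]) hs f
      · exact lint_le hL (by rw [abs_of_pos hL]) hs f
    set T : ℝ≥0∞ := ENNReal.ofReal c' * (I + I + I) * ENNReal.ofReal L with hT
    have hTfin : T ≠ ∞ := by
      apply ENNReal.mul_ne_top _ ENNReal.ofReal_ne_top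
      apply ENNReal.mul_ne_top ENNReal.ofReal_ne_top
      exact (ENNReal.add_lt_top.2 ⟨ENNReal.add_lt_top.2 ⟨hIfin, hIfin⟩, hIfin⟩).ne
    refine ⟨T.toReal + 1, by positivity, ?_⟩
    calc ∫⁻ s in Ioc (0 : ℝ) L, ∫⁻ t in Ioc (0 : ℝ) L,
          ENNReal.ofReal (‖1 - qq β X y s t‖ ^ (-(1 / 2) : ℝ))
        ≤ ∫⁻ s in Ioc (0 : ℝ) L, ENNReal.ofReal c' * (I + I + I) :=
          setLIntegral_mono' measurableSet_Ioc key
      _ = T := by
        rw [setLIntegral_const, Real.volume_Ioc, sub_zero]
      _ = ENNReal.ofReal T.toReal := (ENNReal.ofReal_toReal hTfin).symm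
      _ ≤ ENNReal.ofReal (T.toReal + 1) := ENNReal.ofReal_le_ofReal (by linarith)

end Pool.Agent.H230.LK
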